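import Pool.Agent.H8.DS.TarA

/-!
Module CONV of the board ds_modules (MP_81a758_an).
-/

namespace DS

namespace H77conv

open Set

variable {S B : Type}

theorem dom_convex (F : Fam S B) (w : List B) : ∀ s : S,
    Convex ℝ {p : ℝ × ℝ | ∃ y', (F.sys p.1).Go w (s, p.2) y'} := by
  induction w with
  | nil =>
    intro s p _ q _ a a' _ _ _
    exact ⟨_, rfl⟩
  | cons b w ih =>
    intro s p hp q hq a a' ha ha' hab
    obtain ⟨y₁, h1, h2, h3⟩ := hp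
    obtain ⟨y₂, k1, k2, k3⟩ := hq
    have hD : a • p + a' • q ∈ F.D b := F.conv b h2 k2 ha ha' hab
    have h4 : ((p.1, F.al b * p.2 + (F.be b * p.1 + F.ga b)) : ℝ × ℝ) ∈
        {p : ℝ × ℝ | ∃ y', (F.sys p.1).Go w (F.tgt b, p.2) y'} := ⟨y₁, h3⟩
    have k4 : ((q.1, F.al b * q.2 + (F.be b * q.1 + F.ga b)) : ℝ × ℝ) ∈
        {p : ℝ × ℝ | ∃ y', (F.sys p.1).Go w (F.tgt b, p.2) y'} := ⟨y₂, k3⟩
    have h5 := ih (F.tgt b) h4 k4 ha ha' hab
    have e : a • ((p.1, F.al b * p.2 + (F.be b * p.1 + F.ga b)) : ℝ × ℝ) +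
        a' • ((q.1, F.al b * q.2 + (F.be b * q.1 + F.ga b)) : ℝ × ℝ) =
        ((a • p + a' • q).1, F.al b * (a • p + a' • q).2 +
          (F.be b * (a • p + a' • q).1 + F.ga b)) := by
      have hb : a' = 1 - a := by linarith
      subst hb
      ext
      · simp
      · simp only [Prod.snd_add, Prod.smul_snd, Prod.fst_add, Prod.smul_fst, smul_eq_mul]
        ring
    rw [e] at h5
    obtain ⟨y', hy'⟩ := h5
    exact ⟨y', h1, hD, hy'⟩

end H77conv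

theorem pf_CONV : T_CONV := by
  intro S B F w
  cases w with
  | nil =>
    intro t ht t' _ a a' _ _ _
    obtain ⟨y, y', _⟩ := ht
    exact ⟨y, y, rfl⟩
  | cons b w =>
    intro t ht t' ht' a a' ha ha' hab
    obtain ⟨y, y', h1, h2, h3⟩ := ht
    obtain ⟨z, z', k1, k2, k3⟩ := ht'
    have hp : ((t, y.2) : ℝ × ℝ) ∈
        {p : ℝ × ℝ | ∃ y', (F.sys p.1).Go (b :: w) (F.src b, p.2) y'} := ⟨y', rfl, h2, h3⟩
    have hq : ((t', z.2) : ℝ × ℝ) ∈
        {p : ℝ × ℝ | ∃ y', (F.sys p.1).Go (b :: w) (F.src b, p.2) y'} := ⟨z', rfl, k2, k3⟩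
    obtain ⟨y'', h⟩ := H77conv.dom_convex F (b :: w) (F.src b) hp hq ha ha' hab
    exact ⟨_, _, h⟩

end DS
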