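import Pool.Agent.H8.DS.TarG

/-!
Module HOPFB of the board ds_modules (MP_81a758_an).
-/

namespace DS

open Set

theorem pf_HOPFB : T_HOPFB := by
  intro C S X w hX hU hW s s' hc hH hb
  have hH' : X.Hopf (X.comp s') := hc ▸ hH
  have h0 : 0 ≤ X.b s' := hU s' hH'
  rcases h0.eq_or_lt with h0 | h0
  · exact h0.symm
  exfalso
  obtain ⟨l, hl⟩ : ∃ l, X.kind (X.comp s) = .hopf l := by
    have hH2 : (X.kind (X.comp s)).IsHopf := hH
    cases hk : X.kind (X.comp s) with
    | flat e f => rw [hk] at hH2; exact hH2.elim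
    | hopf l => exact ⟨l, rfl⟩
  have hl1 : 1 < l := by
    have := hX.good (X.comp s)
    rw [hl] at this
    exact this
  have hl0 : 0 < l := by linarith
  have h1 : ∀ n : ℤ, w s < l ^ n * w s' := by
    intro n
    refine hW.hopf s s' l hc hl n ?_
    rw [hb]
    exact mul_pos (zpow_pos hl0 n) h0
  have hinv : l⁻¹ < 1 := inv_lt_one_of_one_lt₀ hl1
  have hpos : 0 < w s / w s' := div_pos (hW.pos s) (hW.pos s')
  obtain ⟨k, hk⟩ := exists_pow_lt_of_lt_one hpos hinv
  have h2 := h1 (-(k : ℤ))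
  rw [zpow_neg, zpow_natCast, ← inv_pow] at h2
  rw [lt_div_iff₀ (hW.pos s')] at hk
  linarith

end DS
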