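import Pool.Agent.H8.DS.TarG

/-!
Module STSL of the board ds_modules (MP_81a758_an).
-/

namespace DS

open Set Data

theorem Data.h77_act_zero {C S : Type} (X : Data C S) (hX : X.Surface) {c : C}
    (hH : X.Hopf c) (g : ℝ × ℝ × ℝ) (hg : g ∈ X.deck c) (z : ℝ × ℝ) (h0 : act g z = 0) :
    z = 0 := by
  have hgp : 0 < g.1 := deck_pos X hX c g hg
  obtain ⟨k, rfl⟩ := hg
  cases hk : X.kind c with
  | flat e f => unfold Data.Hopf at hH; rw [hk] at hH; exact hH.elim
  | hopf l =>
    rw [hk] at h0 hgp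
    simp only [Comp.el] at hgp
    simp only [Comp.el, act, add_zero] at h0
    have h1 := congrArg Prod.fst h0
    have h2 := congrArg Prod.snd h0
    simp only [Prod.fst_zero, Prod.snd_zero, mul_eq_zero] at h1 h2
    ext
    · exact h1.resolve_left hgp.ne'
    · exact h2.resolve_left hgp.ne'

theorem pf_STSL (hEQV : T_EQV) (hSLU : T_SLU) : T_STSL := by
  intro C S X hX t
  constructor
  · intro P c z r h s g ξ hSt hh hCl hc hg hξ he
    have hgp : 0 < g.1 := deck_pos X hX c g hg
    subst hc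
    refine ⟨r * (ginv g).1, X.comp s, z, r, h, ginv g, hSt, hh, hCl, ?_,
      deck_inv X hX _ g hg, ?_, rfl⟩
    · rw [he]
      constructor
      · rintro ⟨s', hs', g', hg', hE⟩
        rcases hE with hE | hE
        · have := (hSLU C S X hX s s' hs'.symm g hg g' hg' ξ ⟨hξ.1.le, hξ.2.le⟩ 0
            ⟨le_refl _, zero_le_one⟩ hE).2.2
          exact hξ.1.ne' this
        · have := (hSLU C S X hX s s' hs'.symm g hg g' hg' ξ ⟨hξ.1.le, hξ.2.le⟩ 1
            ⟨zero_le_one, le_refl _⟩ hE).2.2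
          exact hξ.2.ne this
      · intro hH h0
        have h1 := X.h77_act_zero hX hH g hg _ h0
        exact hX.origin s hH ξ ⟨hξ.1.le, hξ.2.le⟩ h1
    · rw [he, act_ginv g hgp.ne']
      rfl
  · rintro ⟨c, z⟩ s g ξ h hc hg hξ hh hCl hz hV
    simp only at hc hg hCl hz hV
    subst hc
    have hgp : 0 < g.1 := deck_pos X hX _ g hg
    have hs : X.glue (X.glue.symm s) = s := X.glue.apply_symm_apply s
    have hSt := Start.cross (X := X) (X.glue.symm s) (1, 0, 0) ξ
      (deck_one X hX _) hξ.1 hξ.2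
    rw [act_one, hs] at hSt
    have hh' : g.1 * (h / g.1) = h := by field_simp
    have hE := hEQV C S X hX (X.comp s) g hg (X.pt s ξ)
    have hE2 := hEQV C S X hX (X.comp s) g hg (fwd t (X.pt s ξ) (h / g.1))
    have hfw : act g (fwd t (X.pt s ξ) (h / g.1)) = z := by
      rw [act_fwd, hh', hz]
    refine ⟨_, X.comp s, X.pt s ξ, _, h / g.1, g, hSt, div_pos hh hgp, ?_, ?_, hg, ?_, rfl⟩
    · rw [← hE.2.2.2.2 t (h / g.1), hh']
      exact hCl
    · rw [← hE2.2.2.2.1, hfw]
      exact hV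
    · rw [hfw]

end DS
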